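import Pool.Agent.MalP.E.SId
import Pool.Agent.MalP.SigDef

/-! # The algebra modulo the symmetric elements -/

set_option autoImplicit false
set_option linter.unusedSectionVars false

namespace Pool.Agent.MalP

universe u v

open DerAux

namespace EpsV

variable (F : Type u) [Field F]

/-- the free algebra modulo the symmetric elements -/
abbrev AS : Type u := IQ (SId F) SId_idl

/-- the quotient map -/
noncomputable abbrev smk : FA F →ₙₐ[F] AS F := IQ.mkHom SId_idl

variable {F}

theorem smk_surj (a : AS F) : ∃ p : FA F, smk F p = a := IQ.mk_surj a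

theorem smk_eq_zero {p : FA F} : smk F p = 0 ↔ p ∈ SId F := IQ.mk_eq_zero

theorem smk_eq {p q : FA F} (h : IsId (p - q)) : smk F p = smk F q := by
  rw [← sub_eq_zero, ← map_sub]
  exact smk_eq_zero.2 (SId_of_id h)

theorem AS_isV : IsV (AS F) where
  sq := by
    intro x
    obtain ⟨x, rfl⟩ := smk_surj x
    rw [← map_mul, smk_eq_zero]
    refine SId_of_id fun B _ _ _ _ hB y => ?_
    show ev y (x * x) = 0
    rw [map_mul, hB.sq]
  mal := by
    intro x y z
    obtain ⟨x, rfl⟩ := smk_surj x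
    obtain ⟨y, rfl⟩ := smk_surj y
    obtain ⟨z, rfl⟩ := smk_surj z
    rw [← map_mul, ← hom_Jac, ← hom_Jac, ← map_mul]
    refine smk_eq fun B _ _ _ _ hB t => ?_
    show ev t (Jac x y (x * z) - Jac x y z * x) = 0
    rw [map_sub, map_mul, hom_Jac, hom_Jac, map_mul, hB.mal, sub_self]
  f6 := by
    intro a b c d v z
    obtain ⟨a, rfl⟩ := smk_surj a
    obtain ⟨b, rfl⟩ := smk_surj b
    obtain ⟨c, rfl⟩ := smk_surj c
    obtain ⟨d, rfl⟩ := smk_surj d
    obtain ⟨v, rfl⟩ := smk_surj v
    obtain ⟨z, rfl⟩ := smk_surj z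
    rw [← map_mul, ← hom_P108, ← hom_P108, ← map_mul]
    refine smk_eq fun B _ _ _ _ hB t => ?_
    show ev t (P108 a b c d (v * z) - P108 a b c d v * z) = 0
    rw [map_sub, map_mul, hom_P108, hom_P108, map_mul, hB.f6, sub_self]

/-- linear maps on the quotient: membership from the words -/
theorem range_of_words {M : Type v} [AddCommGroup M] [Module F M] {S : Submodule F M}
    (f : AS F →ₗ[F] M) (h : ∀ w, f (smk F (wd w)) ∈ S) (a : AS F) : f a ∈ S := by
  obtain ⟨p, rfl⟩ := smk_surj a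
  have h1 : Submodule.span F (Set.range (wd : FreeMagma ℕ → FA F)) ≤
      S.comap (f ∘ₗ (smk F : FA F →ₗ[F] AS F)) := by
    rw [Submodule.span_le]
    rintro _ ⟨w, rfl⟩
    exact h w
  exact h1 (by rw [span_wd]; trivial)

/-- the generators of the graph -/
noncomputable def gen (a b c : AS F) : AS F × (AS F → AS F → AS F) :=
  (Jac a b c, fun y x => P108 a b c y x)

theorem gen_lin1 (b c : AS F) : ∃ f : AS F →ₗ[F] AS F × (AS F → AS F → AS F),
    ∀ a, f a = gen a b c := by
  obtain ⟨f, hf⟩ := Jac_lin1 F b c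
  have hg := fun y x => P108_lin_a F b c y x
  choose g hg using hg
  refine ⟨LinearMap.prod f (LinearMap.pi fun y => LinearMap.pi fun x => g y x), ?_⟩
  intro a
  refine Prod.ext (hf a) ?_
  funext y x
  exact hg y x a

theorem gen_lin2 (a c : AS F) : ∃ f : AS F →ₗ[F] AS F × (AS F → AS F → AS F),
    ∀ b, f b = gen a b c := by
  obtain ⟨f, hf⟩ := Jac_lin1 F c a
  have hg := fun y x => P108_lin_b F a c y x
  choose g hg using hg
  refine ⟨LinearMap.prod f (LinearMap.pi fun y => LinearMap.pi fun x => g y x), ?_⟩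
  intro b
  refine Prod.ext ((hf b).trans (Jac_cyc a b c)) ?_
  funext y x
  exact hg y x b

theorem gen_lin3 (a b : AS F) : ∃ f : AS F →ₗ[F] AS F × (AS F → AS F → AS F),
    ∀ c, f c = gen a b c := by
  obtain ⟨f, hf⟩ := Jac_lin1 F a b
  have hg := fun y x => P108_lin_c F a b y x
  choose g hg using hg
  refine ⟨LinearMap.prod f (LinearMap.pi fun y => LinearMap.pi fun x => g y x), ?_⟩
  intro c
  refine Prod.ext ((hf c).trans (Jac_cyc c a b).symm) ?_
  funext y x
  exact hg y x c

variable (F) in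
/-- the formal combinations -/
noncomputable def PhiL : K3 F →ₗ[F] AS F × (AS F → AS F → AS F) :=
  Finsupp.linearCombination F
    (fun t => gen (smk F (wd t.1)) (smk F (wd t.2.1)) (smk F (wd t.2.2)))

theorem PhiL_fst (k : K3 F) : (PhiL F k).1 = smk F (JF F k) := by
  unfold PhiL JF
  rw [Finsupp.linearCombination_apply, Finsupp.linearCombination_apply, Finsupp.sum, Finsupp.sum,
    Prod.fst_sum, map_sum]
  refine Finset.sum_congr rfl fun t _ => ?_
  rw [map_smul, hom_Jac]
  rfl

theorem PhiL_snd (k : K3 F) (y x : FA F) :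
    (PhiL F k).2 (smk F y) (smk F x) = smk F (PF k y x) := by
  unfold PhiL PF
  rw [Finsupp.linearCombination_apply, Finsupp.sum, Prod.snd_sum, Finset.sum_apply,
    Finset.sum_apply, map_sum]
  refine Finset.sum_congr rfl fun t _ => ?_
  rw [map_smul, hom_P108]
  rfl

theorem gen_mem (a b c : AS F) : gen a b c ∈ LinearMap.range (PhiL F) := by
  obtain ⟨f, hf⟩ := gen_lin1 b c
  rw [← hf]
  refine range_of_words f (fun w => ?_) a
  rw [hf]
  obtain ⟨f2, hf2⟩ := gen_lin2 (smk F (wd w)) c
  rw [← hf2]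
  refine range_of_words f2 (fun w2 => ?_) b
  rw [hf2]
  obtain ⟨f3, hf3⟩ := gen_lin3 (smk F (wd w)) (smk F (wd w2))
  rw [← hf3]
  refine range_of_words f3 (fun w3 => ?_) c
  rw [hf3]
  refine ⟨Finsupp.single (w, w2, w3) 1, ?_⟩
  unfold PhiL
  rw [Finsupp.linearCombination_single, one_smul]

theorem Gr_le : Gr F (AS F) ≤ LinearMap.range (PhiL F) := by
  unfold Gr
  rw [Submodule.span_le]
  rintro _ ⟨a, b, c, rfl⟩
  exact gen_mem a b c

/-- exactness -/
theorem AS_exact [C23 F] : Exact F (AS F) := by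
  intro G hG
  obtain ⟨k, hk⟩ := Gr_le hG
  have h1 : JF F k ∈ SId F := by
    rw [← smk_eq_zero, ← PhiL_fst, hk]
  funext y x
  obtain ⟨y, rfl⟩ := smk_surj y
  obtain ⟨x, rfl⟩ := smk_surj x
  have h2 := PhiL_snd k y x
  rw [hk] at h2
  show G (smk F y) (smk F x) = 0
  rw [show G (smk F y) (smk F x) = smk F (PF k y x) from h2, smk_eq_zero]
  exact PF_mem h1 y x

end EpsV

end Pool.Agent.MalP
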