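import Pool.Agent.MalP.Der
import Pool.Agent.MalP.PSkew

/-! # Dual numbers over an algebra of the variety -/

set_option autoImplicit false
set_option linter.unusedSimpArgs false

namespace Pool.Agent.MalP

universe u v

open DerAux

namespace EpsV

section

variable {A : Type v} [NonUnitalNonAssocRing A]

theorem sub_a (x y : Eps A) : (x - y).a = x.a - y.a := by
  rw [sub_eq_add_neg, Eps.add_a, Eps.neg_a, sub_eq_add_neg]

theorem sub_b (x y : Eps A) : (x - y).b = x.b - y.b := by
  rw [sub_eq_add_neg, Eps.add_b, Eps.neg_b, sub_eq_add_neg]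

theorem nsmul_a (n : ℕ) (x : Eps A) : (n • x).a = n • x.a := by
  induction n with
  | zero => rw [zero_smul, zero_smul]; rfl
  | succ n ih => rw [succ_nsmul, succ_nsmul, Eps.add_a, ih]

theorem nsmul_b (n : ℕ) (x : Eps A) : (n • x).b = n • x.b := by
  induction n with
  | zero => rw [zero_smul, zero_smul]; rfl
  | succ n ih => rw [succ_nsmul, succ_nsmul, Eps.add_b, ih]

theorem Jac_a (x y z : Eps A) : (Jac x y z).a = Jac x.a y.a z.a := rfl

theorem Jac_b (x y z : Eps A) : (Jac x y z).b =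
    Jac x.b y.a z.a + Jac x.a y.b z.a + Jac x.a y.a z.b := by
  unfold Jac
  simp only [Eps.add_b, Eps.mul_b, Eps.mul_a, add_mul, mul_add]
  abel

theorem P108_a (a b c d x : Eps A) : (P108 a b c d x).a = P108 a.a b.a c.a d.a x.a := by
  unfold P108
  simp only [sub_a, Eps.add_a, nsmul_a, Eps.mul_a, Jac_a]

open PSkewAux in
theorem P108_b (a b c d x : Eps A) : (P108 a b c d x).b =
    P108 a.b b.a c.a d.a x.a + P108 a.a b.b c.a d.a x.a + P108 a.a b.a c.b d.a x.a +
      P108 a.a b.a c.a d.b x.a + P108 a.a b.a c.a d.a x.b := by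
  unfold P108
  simp only [sub_b, Eps.add_b, nsmul_b, Eps.mul_b, Eps.mul_a, Jac_a, Jac_b, Jac_add1, Jac_add2,
    Jac_add3, add_mul, mul_add, smul_add, smul_sub]
  abel

open PSkewAux in
theorem P108_add_x (a b c d x x' : A) :
    P108 a b c d (x + x') = P108 a b c d x + P108 a b c d x' := by
  unfold P108
  simp only [Jac_add1, add_mul, mul_add, smul_add, smul_sub]
  abel

theorem isV (h : IsV A) : IsV (Eps A) := by
  refine { Eps.isMalcev h.toIsMalcev with f6 := ?_ }
  intro a b c d v z
  ext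
  · rw [P108_a, Eps.mul_a, Eps.mul_a, P108_a, h.f6]
  · rw [P108_b, Eps.mul_b, Eps.mul_b, P108_b, P108_a, Eps.mul_a, P108_add_x]
    simp only [h.f6, add_mul]
    abel

end

/-- the inclusion -/
def inc {A : Type v} [Zero A] (a : A) : Eps A := ⟨a, 0⟩

/-- the infinitesimal elements -/
def ep {A : Type v} [Zero A] (a : A) : Eps A := ⟨0, a⟩

theorem inc_a {A : Type v} [Zero A] (a : A) : (inc a).a = a := rfl
theorem inc_b {A : Type v} [Zero A] (a : A) : (inc a).b = 0 := rfl
theorem ep_a {A : Type v} [Zero A] (a : A) : (ep a).a = 0 := rfl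
theorem ep_b {A : Type v} [Zero A] (a : A) : (ep a).b = a := rfl

section

variable {A : Type v} [NonUnitalNonAssocRing A]

theorem inc_mul (a b : A) : inc (a * b) = inc a * inc b := by
  ext
  · rfl
  · rw [Eps.mul_b, inc_b, inc_b, inc_b, mul_zero, zero_mul, add_zero]

theorem ep_mul (a b : A) : ep (a * b) = ep a * inc b := by
  ext
  · rw [Eps.mul_a, ep_a, ep_a, zero_mul]
  · rw [Eps.mul_b, ep_b, ep_b, ep_a, inc_a, inc_b, mul_zero, zero_add]

theorem eq_inc_add_ep (x : Eps A) : x = inc x.a + ep x.b := by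
  ext
  · rw [Eps.add_a, inc_a, ep_a, add_zero]
  · rw [Eps.add_b, inc_b, ep_b, zero_add]

/-- the point `x + ε y e_l` -/
def X1 (x : ℕ → A) (l : ℕ) (y : A) : ℕ → Eps A := fun i => ⟨x i, if i = l then y else 0⟩

theorem X1_a (x : ℕ → A) (l : ℕ) (y : A) (i : ℕ) : (X1 x l y i).a = x i := rfl

theorem X1_b (x : ℕ → A) (l : ℕ) (y : A) (i : ℕ) : (X1 x l y i).b = if i = l then y else 0 := rfl

end

section hom

variable {F : Type u} [Field F] {A : Type v} [NonUnitalNonAssocRing A] [Module F A]

variable (F) in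
/-- the first component -/
def pa : Eps A →ₙₐ[F] A where
  toFun := fun x => x.a
  map_smul' := fun _ _ => rfl
  map_zero' := rfl
  map_add' := fun _ _ => rfl
  map_mul' := fun _ _ => rfl

variable (F) in
/-- the second component -/
def pb : Eps A →ₗ[F] A where
  toFun := fun x => x.b
  map_smul' := fun _ _ => rfl
  map_add' := fun _ _ => rfl

theorem pb_apply (x : Eps A) : pb F x = x.b := rfl

variable (F) in
/-- the swap of the two infinitesimals -/
def sw : Eps (Eps A) →ₙₐ[F] Eps (Eps A) where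
  toFun := fun x => ⟨⟨x.a.a, x.b.a⟩, ⟨x.a.b, x.b.b⟩⟩
  map_smul' := fun _ _ => rfl
  map_zero' := rfl
  map_add' := fun _ _ => rfl
  map_mul' := fun x y => by
    ext
    · rfl
    · rfl
    · rfl
    · show x.a.a * y.b.b + x.a.b * y.b.a + (x.b.a * y.a.b + x.b.b * y.a.a) =
        x.a.a * y.b.b + x.b.a * y.a.b + (x.a.b * y.b.a + x.b.b * y.a.a)
      abel

theorem sw_bb (x : Eps (Eps A)) : (sw F x).b.b = x.b.b := rfl

theorem sw_inc (x : Eps A) : sw F (inc x) = ⟨inc x.a, inc x.b⟩ := rfl

theorem sw_X1 (x : ℕ → A) (l l' : ℕ) (m m' : A) (i : ℕ) :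
    sw F (X1 (X1 x l m) l' (inc m') i) = X1 (X1 x l' m') l (inc m) i := by
  unfold X1
  by_cases h : i = l
  · by_cases h' : i = l'
    · simp only [if_pos h, if_pos h']
      rfl
    · simp only [if_pos h, if_neg h']
      rfl
  · by_cases h' : i = l'
    · simp only [if_neg h, if_pos h']
      rfl
    · simp only [if_neg h, if_neg h']
      rfl

end hom

end EpsV

end Pool.Agent.MalP
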