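import Pool.Agent.MalP.E.Alg
import Pool.Agent.MalP.Sig
import Pool.Agent.MalP.EAlg

/-! # Jacobians of identities of the cross product algebras -/

set_option autoImplicit false
set_option linter.unusedSectionVars false

namespace Pool.Agent.MalP

universe u v

open DerAux

namespace EpsV

variable {F : Type u} [Field F]

/-- a symmetric element `Jac p y z`, where `y` and `z` are letters which do not occur in `p`, is an identity -/
theorem jac_id [C23 F] {p : FA F} (hp : Jac (ev (fun i => FreeNonUnitalNonAssocAlgebra.of F (i + 2)) p)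
      (FreeNonUnitalNonAssocAlgebra.of F 0) (FreeNonUnitalNonAssocAlgebra.of F 1) ∈ SId F)
    (B : Type u) [NonUnitalNonAssocRing B] [Module F B] [IsScalarTower F B B] [SMulCommClass F B B]
    (hB : IsV B) (x : ℕ → B) (b c : B) : Jac (ev x p) b c = 0 := by
  have h1 : ∀ b c : B, Jac (ev x p) b c = Jac (ev x p) c b := by
    intro b c
    have h2 := (mem_SId.1 hp B hB (fun i => x (i - 2))).2.2 0 1 b c
    have h3 : ∀ b c : B, (ev (X1 (X1 (fun i => x (i - 2)) 0 b) 1 (inc c))
        (Jac (ev (fun i => FreeNonUnitalNonAssocAlgebra.of F (i + 2)) p)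
        (FreeNonUnitalNonAssocAlgebra.of F 0) (FreeNonUnitalNonAssocAlgebra.of F 1))).b.b =
        Jac (ev x p) b c := by
      intro b c
      have h4 : ev (X1 (X1 (fun i => x (i - 2)) 0 b) 1 (inc c))
          (ev (fun i => FreeNonUnitalNonAssocAlgebra.of F (i + 2)) p) = inc (inc (ev x p)) := by
        rw [ev_ev]
        have h5 : (fun i => ev (X1 (X1 (fun i => x (i - 2)) 0 b) 1 (inc c))
            (FreeNonUnitalNonAssocAlgebra.of F (i + 2))) = fun i => inc (inc (x i)) := by
          funext i
          rw [ev_of]
          rfl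
        rw [h5]
        have h6 : ∀ q : FA F, ev (fun i => inc (inc (x i))) q = inc (inc (ev x q)) := by
          intro q
          let f : B →ₙₐ[F] Eps (Eps B) :=
            { toFun := fun y => inc (inc y)
              map_smul' := fun r y => by
                ext <;> simp [inc]
              map_zero' := rfl
              map_add' := fun y z => by
                ext <;> simp [inc]
              map_mul' := fun y z => by
                rw [inc_mul, inc_mul] }
          exact (hom_ev f x q).symm
        exact h6 p
      rw [hom_Jac, h4, ev_of, ev_of, Jac_b, Eps.add_b, Eps.add_b, Jac_b, Jac_b, Jac_b]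
      show Jac (0 : B) _ _ + Jac (0 : B) _ _ + Jac (0 : B) _ _ +
        (Jac (0 : B) _ _ + Jac _ (0 : B) _ + Jac _ (0 : B) _) +
        (Jac (0 : B) _ _ + Jac (ev x p) b c + Jac _ _ (0 : B)) = _
      simp [Jac]
    rw [h3, h3] at h2
    exact h2
  have h2 : Jac (ev x p) b c = - Jac (ev x p) b c := by
    nth_rewrite 1 [h1]
    exact hB.toIsMalcev.Jac23 _ _ _
  exact eq_neg_self F h2

end EpsV

/-- **(S2')** If `p` is an identity of all cross product algebras then `J(p(x), b, c) = 0` in every algebra of the
variety. -/
theorem S2p {F : Type u} [Field F] [C23 F] {p : FA F}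
    (h : ∀ (A : CPA F) (x : ℕ → A.Mal), ev x p = 0)
    (B : Type u) [NonUnitalNonAssocRing B] [Module F B] [IsScalarTower F B B]
    [SMulCommClass F B B] (hB : IsV B) (x : ℕ → B) (b c : B) : Jac (ev x p) b c = 0 := by
  obtain ⟨D⟩ := exists_sigData (F := F) (EpsV.AS_isV (F := F)) EpsV.AS_exact
  obtain ⟨A, i, hi⟩ := exists_cpa (EpsV.AS_isV (F := F)) D
  refine EpsV.jac_id ?_ B hB x b c
  rw [← EpsV.smk_eq_zero, hom_Jac]
  apply hi
  rw [hom_ev, hom_ev]
  exact h A _

end Pool.Agent.MalP
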