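import Pool.Agent.MalP.E.Sym

/-! # The ideal of the symmetric elements and its closure property -/

set_option autoImplicit false
set_option linter.unusedSectionVars false

namespace Pool.Agent.MalP

universe u v

open DerAux

namespace EpsV

variable {F : Type u} [Field F]

variable (F) in
/-- the symmetric elements: the values annihilate everything, the first derivatives in the direction of products
vanish, the second derivatives are symmetric -/
noncomputable def SId : Submodule F (FA F) where
  carrier := {p | ∀ (B : Type u) [NonUnitalNonAssocRing B] [Module F B] [IsScalarTower F B B]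
    [SMulCommClass F B B], IsV B → ∀ x : ℕ → B, (∀ z, ev x p * z = 0) ∧
      (∀ (l : ℕ) (u w : B), (ev (X1 x l (u * w)) p).b = 0) ∧
      ∀ (l l' : ℕ) (m m' : B), (ev (X1 (X1 x l m) l' (inc m')) p).b.b =
        (ev (X1 (X1 x l m') l' (inc m)) p).b.b}
  add_mem' := fun {p q} hp hq B _ _ _ _ hB x => by
    obtain ⟨h1, h2, h3⟩ := hp B hB x
    obtain ⟨k1, k2, k3⟩ := hq B hB x
    refine ⟨fun z => ?_, fun l u w => ?_, fun l l' m m' => ?_⟩
    · rw [map_add, add_mul, h1, k1, add_zero]
    · rw [map_add, Eps.add_b, h2, k2, add_zero]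
    · rw [map_add, map_add, Eps.add_b, Eps.add_b, Eps.add_b, Eps.add_b, h3, k3]
  zero_mem' := fun B _ _ _ _ hB x => by
    refine ⟨fun z => ?_, fun l u w => ?_, fun l l' m m' => ?_⟩
    · rw [map_zero, zero_mul]
    · rw [map_zero]
      rfl
    · rw [map_zero, map_zero]
  smul_mem' := fun r p hp B _ _ _ _ hB x => by
    obtain ⟨h1, h2, h3⟩ := hp B hB x
    refine ⟨fun z => ?_, fun l u w => ?_, fun l l' m m' => ?_⟩
    · rw [map_smul, smul_mul_assoc, h1, smul_zero]
    · rw [map_smul, Eps.smul_b, h2, smul_zero]
    · rw [map_smul, map_smul, Eps.smul_b, Eps.smul_b, Eps.smul_b, Eps.smul_b, h3]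

theorem mem_SId {p : FA F} : p ∈ SId F ↔ ∀ (B : Type u) [NonUnitalNonAssocRing B] [Module F B]
    [IsScalarTower F B B] [SMulCommClass F B B], IsV B → ∀ x : ℕ → B, (∀ z, ev x p * z = 0) ∧
      (∀ (l : ℕ) (u w : B), (ev (X1 x l (u * w)) p).b = 0) ∧
      ∀ (l l' : ℕ) (m m' : B), (ev (X1 (X1 x l m) l' (inc m')) p).b.b =
        (ev (X1 (X1 x l m') l' (inc m)) p).b.b := Iff.rfl

/-- identities are symmetric elements -/
theorem SId_of_id {p : FA F} (hp : IsId p) : p ∈ SId F := by
  have hp' : ∀ (B : Type u) [NonUnitalNonAssocRing B] [Module F B] [IsScalarTower F B B]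
    [SMulCommClass F B B], IsV B → ∀ x : ℕ → B, ev x p = 0 := hp
  rw [mem_SId]
  intro B _ _ _ _ hB x
  refine ⟨fun z => ?_, fun l u w => ?_, fun l l' m m' => ?_⟩
  · rw [hp' B hB, zero_mul]
  · rw [hp' (Eps B) (isV hB)]
    rfl
  · rw [hp' (Eps (Eps B)) (isV (isV hB)), hp' (Eps (Eps B)) (isV (isV hB))]

theorem SId_idl : IsIdl (SId F) := by
  intro a ha b
  constructor
  · refine SId_of_id fun B _ _ _ _ hB x => ?_
    show ev x (a * b) = 0
    rw [map_mul]
    exact (ha B hB x).1 _
  · refine SId_of_id fun B _ _ _ _ hB x => ?_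
    show ev x (b * a) = 0
    rw [map_mul, hB.toIsMalcev.anti, (ha B hB x).1, neg_zero]

variable (F) in
/-- the sum of the Jacobians in the free algebra -/
noncomputable def JF : K3 F →ₗ[F] FA F :=
  Finsupp.linearCombination F (fun t => Jac (wd t.1) (wd t.2.1) (wd t.2.2))

theorem ev_JF {B : Type v} [NonUnitalNonAssocRing B] [Module F B] [IsScalarTower F B B]
    [SMulCommClass F B B] (x : ℕ → B) (k : K3 F) : ev x (JF F k) = jac k x := by
  unfold JF jac
  rw [Finsupp.linearCombination_apply, Finsupp.sum, map_sum]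
  refine Finset.sum_congr rfl fun t _ => ?_
  rw [map_smul]
  have h : ev x (Jac (wd t.1) (wd t.2.1) (wd t.2.2) : FA F) =
      Jac (evw x t.1) (evw x t.2.1) (evw x t.2.2) := by
    unfold Jac
    simp only [map_add, map_mul, ev_wd]
  rw [h]

/-- the sum of the operators in the free algebra -/
noncomputable def PF (k : K3 F) (y z : FA F) : FA F :=
  ∑ t ∈ k.support, k t • P108 (wd t.1) (wd t.2.1) (wd t.2.2) y z

theorem ev_PF {B : Type v} [NonUnitalNonAssocRing B] [Module F B] [IsScalarTower F B B]
    [SMulCommClass F B B] (x : ℕ → B) (k : K3 F) (y z : FA F) :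
    ev x (PF k y z) = psi k x (ev x y) (ev x z) := by
  unfold PF psi
  rw [map_sum]
  refine Finset.sum_congr rfl fun t _ => ?_
  rw [map_smul]
  have h : ev x (P108 (wd t.1) (wd t.2.1) (wd t.2.2) y z : FA F) =
      P108 (evw x t.1) (evw x t.2.1) (evw x t.2.2) (ev x y) (ev x z) := by
    unfold P108 Jac
    simp only [map_add, map_sub, map_mul, map_nsmul, ev_wd]
  rw [h]

theorem PF_eq (k : K3 F) (y z : FA F) :
    PF k y z = psi k (fun i => (FreeNonUnitalNonAssocAlgebra.of F i : FA F)) y z := by
  have h : ∀ w : FreeMagma ℕ, evw (fun i => (FreeNonUnitalNonAssocAlgebra.of F i : FA F)) w = wd w := by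
    intro w
    induction w using FreeMagma.rec with
    | of i => rfl
    | mul a b iha ihb =>
      show evw _ a * evw _ b = _
      rw [iha, ihb, wd_mul]
  unfold PF psi
  simp only [h]

theorem PF_lin_y (k : K3 F) (z : FA F) : ∃ f : FA F →ₗ[F] FA F, ∀ y, f y = PF k y z := by
  obtain ⟨f, hf⟩ := Gr_lin_y (jp_mem k (fun i => (FreeNonUnitalNonAssocAlgebra.of F i : FA F))) z
  exact ⟨f, fun y => by rw [PF_eq]; exact hf y⟩

theorem PF_lin_z (k : K3 F) (y : FA F) : ∃ f : FA F →ₗ[F] FA F, ∀ z, f z = PF k y z := by
  obtain ⟨f, hf⟩ := Gr_lin_x (jp_mem k (fun i => (FreeNonUnitalNonAssocAlgebra.of F i : FA F))) y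
  exact ⟨f, fun z => by rw [PF_eq]; exact hf z⟩

/-- membership from the words -/
theorem mem_of_words {S : Submodule F (FA F)} (f : FA F →ₗ[F] FA F) (h : ∀ w, f (wd w) ∈ S)
    (y : FA F) : f y ∈ S := by
  have h1 : Submodule.span F (Set.range (wd : FreeMagma ℕ → FA F)) ≤ S.comap f := by
    rw [Submodule.span_le]
    rintro _ ⟨w, rfl⟩
    exact h w
  exact h1 (by rw [span_wd]; trivial)

variable [C23 F]

theorem KC_of {k : K3 F} (h : JF F k ∈ SId F) : KC k := by
  intro B _ _ _ _ hB x
  obtain ⟨h1, h2, -⟩ := h B hB x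
  refine ⟨fun z => ?_, fun l u w => ?_⟩
  · rw [← ev_JF]
    exact h1 z
  · rw [← ev_JF]
    exact h2 l u w

section second

variable {k : K3 F} (hk : KC k) {B : Type u} [NonUnitalNonAssocRing B] [Module F B]
  [IsScalarTower F B B] [SMulCommClass F B B] (hB : IsV B)

/-- the second derivative of `psi` -/
noncomputable def hH (k : K3 F) (x : ℕ → B) (l l' : ℕ) (m m' v w : B) : B :=
  (gG k (X1 x l m) l' (inc m') (inc v) (inc w)).b

theorem gG_b (k : K3 F) (x : ℕ → B) (l l' : ℕ) (m m' : B) (V W : Eps B) :
    (gG k (X1 x l m) l' (inc m') V W).b = hH k x l' l m' m V.a W.a +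
      gG k x l' m' V.b W.a + gG k x l' m' V.a W.b := by
  have h1 : (gG k (X1 x l m) l' (inc m') V W).b =
      (sw F (psi k (X1 (X1 x l m) l' (inc m')) (inc V) (inc W))).b.b := by
    rw [gG_eq]
    rfl
  have h2 : sw F (psi k (X1 (X1 x l m) l' (inc m')) (inc V) (inc W)) =
      psi k (X1 (X1 x l' m') l (inc m)) (sw F (inc V)) (sw F (inc W)) := by
    have hw : ∀ w : FreeMagma ℕ, sw F (evw (X1 (X1 x l m) l' (inc m')) w) =
        evw (X1 (X1 x l' m') l (inc m)) w := by
      intro w
      induction w using FreeMagma.rec with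
      | of i => exact sw_X1 x l l' m m' i
      | mul a b iha ihb =>
        show sw F (evw (X1 (X1 x l m) l' (inc m')) a * evw (X1 (X1 x l m) l' (inc m')) b) =
          evw (X1 (X1 x l' m') l (inc m)) a * evw (X1 (X1 x l' m') l (inc m)) b
        rw [map_mul, iha, ihb]
    unfold psi
    rw [map_sum]
    refine Finset.sum_congr rfl fun t _ => ?_
    rw [map_smul, hom_P108, hw, hw, hw]
  rw [h1, h2, psi_b, sw_inc, sw_inc]
  show (gG k (X1 x l' m') l (inc m) (inc V.a) (inc W.a) + psi k (X1 x l' m') (inc V.b) (inc W.a) +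
    psi k (X1 x l' m') (inc V.a) (inc W.b)).b = _
  rw [Eps.add_b, Eps.add_b, ← gG_eq, ← gG_eq]
  rfl

theorem hH_swap (k : K3 F) (x : ℕ → B) (l l' : ℕ) (m m' v w : B) :
    hH k x l l' m m' v w = hH k x l' l m' m v w := by
  have h := gG_b k x l l' m m' (inc v) (inc w)
  have h1 : ∀ y : B, gG k x l' m' 0 y = 0 := by
    intro y
    rw [gG_eq]
    show (psi k (X1 x l' m') 0 (inc y)).b = 0
    rw [psi_zero_q]
    rfl
  have h2 : ∀ y : B, gG k x l' m' y 0 = 0 := by
    intro y
    rw [gG_eq]
    show (psi k (X1 x l' m') (inc y) 0).b = 0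
    rw [psi_zero_p]
    rfl
  rw [inc_b, inc_b, inc_a, inc_a, h1, h2, add_zero, add_zero] at h
  exact h

include hk hB

theorem hH_23 (x : ℕ → B) (l l' : ℕ) (m m' v w : B) :
    hH k x l l' m m' v w = hH k x l l' m v m' w := by
  unfold hH
  rw [gG_symm'' hk (isV hB)]

theorem hH_12 (x : ℕ → B) (l l' : ℕ) (m m' v w : B) :
    hH k x l l' m m' v w = hH k x l l' m' m v w := by
  rw [hH_23 hk hB x l l' m m' v w, hH_swap, hH_23 hk hB x l' l v m m' w, hH_swap,
    hH_23 hk hB x l l' m' v m w]

end second

/-- the value of a letter in `B[ε][ε']` -/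
theorem letter_val {B : Type v} [NonUnitalNonAssocRing B] (x : ℕ → B) (l : ℕ) (m : B) (i : ℕ) :
    X1 x l m i = inc (x i) + ep (if i = l then m else 0) := eq_inc_add_ep _

/-- **The closure property.** -/
theorem PF_mem {k : K3 F} (h : JF F k ∈ SId F) (y z : FA F) : PF k y z ∈ SId F := by
  have hk := KC_of h
  obtain ⟨f, hf⟩ := PF_lin_y k z
  rw [← hf]
  refine mem_of_words f (fun w => ?_) y
  rw [hf]
  obtain ⟨f', hf'⟩ := PF_lin_z k (wd w)
  rw [← hf']
  refine mem_of_words f' (fun w' => ?_) z
  rw [hf']
  cases w using FreeMagma.rec with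
  | mul a b =>
    refine SId_of_id fun B _ _ _ _ hB x => ?_
    show ev x (PF k (wd (FreeMagma.mul a b)) (wd w')) = 0
    rw [ev_PF, ← wd_mul, map_mul, psi_mul hk hB]
  | of b =>
    cases w' using FreeMagma.rec with
    | mul a' b' =>
      refine SId_of_id fun B _ _ _ _ hB x => ?_
      show ev x (PF k (wd (FreeMagma.of b)) (wd (FreeMagma.mul a' b'))) = 0
      rw [ev_PF, ← wd_mul, map_mul, psi_mul' hk hB]
    | of c =>
      rw [mem_SId]
      intro B _ _ _ _ hB x
      have hE := isV hB
      refine ⟨fun z => ?_, fun l u w => ?_, fun l l' m m' => ?_⟩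
      · rw [ev_PF]
        exact psi_kill hk hB x _ _ z
      · rw [ev_PF, ev_wd, ev_wd]
        show (psi k (X1 x l (u * w)) (X1 x l (u * w) b) (X1 x l (u * w) c)).b = 0
        rw [psi_b, X1_a, X1_a, X1_b, X1_b]
        have e1 : gG k x l (u * w) (x b) (x c) = 0 := by
          rw [gG_symm'' hk hB, gG_mul hk hB]
        have e2 : psi k x (if b = l then u * w else 0) (x c) = 0 := by
          split_ifs
          · exact psi_mul hk hB x u w _
          · exact psi_zero_q k x _
        have e3 : psi k x (x b) (if c = l then u * w else 0) = 0 := by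
          split_ifs
          · exact psi_mul' hk hB x u w _
          · exact psi_zero_p k x _
        rw [e1, e2, e3, add_zero, add_zero]
      · have key : ∀ m m' : B,
            (ev (X1 (X1 x l m) l' (inc m')) (PF k (wd (FreeMagma.of b)) (wd (FreeMagma.of c)))).b.b =
            hH k x l' l m' m (x b) (x c) +
            gG k x l' m' (if b = l then m else 0) (x c) +
            gG k x l' m' (x b) (if c = l then m else 0) +
            (gG k x l m (if b = l' then m' else 0) (x c) +
              psi k x (if b = l' then m' else 0) (if c = l then m else 0)) +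
            (gG k x l m (x b) (if c = l' then m' else 0) +
              psi k x (if b = l then m else 0) (if c = l' then m' else 0)) := by
          intro m m'
          have hi : ∀ (P : Prop) [Decidable P], (if P then inc m' else (0 : Eps B)) =
              inc (if P then m' else 0) := by
            intro P _
            split_ifs <;> rfl
          rw [ev_PF, ev_wd, ev_wd]
          show (psi k (X1 (X1 x l m) l' (inc m')) (X1 (X1 x l m) l' (inc m') b)
            (X1 (X1 x l m) l' (inc m') c)).b.b = _
          rw [psi_b, X1_a, X1_a, X1_b, X1_b, hi, hi, Eps.add_b, Eps.add_b, gG_b, X1_a, X1_a, X1_b,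
            X1_b, psi_b, psi_b]
          simp only [inc_a, inc_b, X1_a, X1_b, psi_zero_q, psi_zero_p, add_zero]
        rw [key m m', key m' m]
        have s1 : hH k x l' l m' m (x b) (x c) = hH k x l' l m m' (x b) (x c) :=
          hH_12 hk hB x l' l m' m (x b) (x c)
        have s2 : gG k x l' m' (if b = l then m else 0) (x c) =
            gG k x l' m (if b = l then m' else 0) (x c) := by
          split_ifs
          · exact gG_symm'' hk hB x l' m' m (x c)
          · rw [gG_eq, gG_eq]
            show (psi k (X1 x l' m') 0 (inc (x c))).b = (psi k (X1 x l' m) 0 (inc (x c))).b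
            rw [psi_zero_q, psi_zero_q]
        have s3 : gG k x l' m' (x b) (if c = l then m else 0) =
            gG k x l' m (x b) (if c = l then m' else 0) := by
          split_ifs
          · exact gG_symm hk hB x l' m' (x b) m
          · rw [gG_eq, gG_eq]
            show (psi k (X1 x l' m') (inc (x b)) 0).b = (psi k (X1 x l' m) (inc (x b)) 0).b
            rw [psi_zero_p, psi_zero_p]
        have s4 : gG k x l m (if b = l' then m' else 0) (x c) =
            gG k x l m' (if b = l' then m else 0) (x c) := by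
          split_ifs
          · exact gG_symm'' hk hB x l m m' (x c)
          · rw [gG_eq, gG_eq]
            show (psi k (X1 x l m) 0 (inc (x c))).b = (psi k (X1 x l m') 0 (inc (x c))).b
            rw [psi_zero_q, psi_zero_q]
        have s5 : psi k x (if b = l' then m' else 0) (if c = l then m else 0) =
            psi k x (if b = l' then m else 0) (if c = l then m' else 0) := by
          split_ifs
          · exact psi_symm hk hB x m' m
          · rw [psi_zero_p, psi_zero_p]
          · rw [psi_zero_q, psi_zero_q]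
          · rfl
        have s6 : gG k x l m (x b) (if c = l' then m' else 0) =
            gG k x l m' (x b) (if c = l' then m else 0) := by
          split_ifs
          · exact gG_symm hk hB x l m (x b) m'
          · rw [gG_eq, gG_eq]
            show (psi k (X1 x l m) (inc (x b)) 0).b = (psi k (X1 x l m') (inc (x b)) 0).b
            rw [psi_zero_p, psi_zero_p]
        have s7 : psi k x (if b = l then m else 0) (if c = l' then m' else 0) =
            psi k x (if b = l then m' else 0) (if c = l' then m else 0) := by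
          split_ifs
          · exact psi_symm hk hB x m m'
          · rw [psi_zero_p, psi_zero_p]
          · rw [psi_zero_q, psi_zero_q]
          · rfl
        rw [s1, s2, s3, s4, s5, s6, s7]

end EpsV

end Pool.Agent.MalP
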